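import Pool.Agent.H79.QUAD.Tls

/-!
# Row 366: STAR

`star_stmt`: the statement `StarStmt` of `H64/QUAD/Top.lean`.
-/

set_option autoImplicit false

namespace Pool.QT64

open Finset Real
open Pool.Agent.H49.Ent Pool.Agent.H32.Dense Pool.CH30 Pool.STK Pool.KS6 Pool.SLO Pool.RC21
open Pool.ST79
open Pool.BFL (Pb)
open Pool.QC (QD nfb Absb)

variable {c k : ℕ}

section data

variable (H : QH c k)

/-- The time, in the set of the values. -/
def QH.T' (ω : H.Ω) : Set.range H.th := ⟨H.th ω, ω, rfl⟩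

/-- The label, in the set of the values. -/
def QH.V' (ω : H.Ω) : Set.range H.v := ⟨H.v ω, ω, rfl⟩

/-- The values of a block are values of `nu`. -/
theorem blk_val (hp : ∀ ω, 0 ≤ H.p ω) (Z : Blk H.p H.b H.nu) {e : Z.Ω} (he : 0 < Z.p e) :
    ∃ ω, 0 < H.p ω ∧ H.nu ω = Z.y e := by
  classical
  have h1 : 0 < law Z.p (fun ω => (Z.y ω, Z.b ω)) (Z.y e, Z.b e) :=
    law_pos Z.nn (fun ω => (Z.y ω, Z.b ω)) he
  rw [Z.ly] at h1
  unfold law at h1
  obtain ⟨ω, -, hω⟩ := Finset.exists_ne_zero_of_sum_ne_zero h1.ne'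
  by_cases h2 : (H.nu ω, H.b ω) = (Z.y e, Z.b e)
  · rw [if_pos h2] at hω
    exact ⟨ω, lt_of_le_of_ne (hp ω) (Ne.symm hω), (Prod.ext_iff.1 h2).1⟩
  · rw [if_neg h2] at hω
    exact absurd rfl hω

/-- **From the graph of the star to the graph for COMB.** -/
theorem gd_of_good {n₀ : Fin c} {X B N : ℕ} {C c1 ka ε0 : ℝ} (hp : ∀ ω, 0 ≤ H.p ω)
    (hC : 1 ≤ C) (hnu : ∀ ω i, |(H.nu ω i : ℝ)| ≤ C * 2 ^ X) (Z : Blk H.p H.b H.nu) {e : Z.Ω}
    (he : 0 < Z.p e) {θ : Fin N → Set.range H.th}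
    (hg : GoodQ Z (ε0 * X) C ((2 : ℝ) ^ (-(ka * X))) X (fun t : Set.range H.th => H.tau t.1)
      (fun t : Set.range H.th => H.E t.1) (wE Z e) θ)
    (hn : nfb (rw' Z (wE Z e)) Z.y (fun _ => ()) n₀ X B ≤ (1 - c1) * X * Real.log 2) :
    H.Gd n₀ X B C c1 ka ε0 (fun j => (θ j).1) := by
  classical
  obtain ⟨D, hD, hA, sp, h1, -, h2⟩ := hg
  have hr : IsLaw (rw' Z (wE Z e)) := rw_law Z he
  obtain ⟨R, hR⟩ : ∃ R : Z.Ω → Fin c → ℤ, R = fun ω =>
    if ∀ i, |(Z.y ω i : ℝ)| ≤ C * 2 ^ X then Z.y ω else 0 := ⟨_, rfl⟩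
  have hyR : ∀ ω, 0 < rw' Z (wE Z e) ω → Z.y ω = R ω := by
    intro ω hω
    have a1 : 0 < Z.p ω := ((cond_pos_iff Z.nn (wE Z) (wE Z e) ω).1 hω).1
    obtain ⟨ω', -, h3⟩ := blk_val H hp Z a1
    rw [hR]
    simp only
    rw [if_pos]
    intro i
    rw [← h3]
    exact hnu ω' i
  refine ⟨D, Z.Ω, Z.inst, rw' Z (wE Z e), R, sp, hD, hr, ?_, absb_supp hr.nonneg hyR hA, ?_, h1,
    h2⟩
  · intro ω i
    rw [hR]
    simp only
    split_ifs with h
    · exact h i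
    · simp only [Pi.zero_apply, Int.cast_zero, abs_zero]
      positivity
  · rw [← nfb_supp hr.nonneg hyR]
    exact hn

/-- The number of the values of `nu`. -/
theorem nu_ent {X : ℕ} {C : ℝ} (hp : IsLaw H.p) (hC : 1 ≤ C)
    (hnu : ∀ ω i, |(H.nu ω i : ℝ)| ≤ C * 2 ^ X) :
    CH H.p H.nu H.b ≤ c * (Real.log (5 * C) + X * Real.log 2) := by
  have h1 := CH_le_vec hp.nonneg hp.sum_one H.nu H.b (fun _ => 2 * (C * 2 ^ X)) (by
    intro ω ω' _ _ _ i
    push_cast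
    have a1 := abs_le.1 (hnu ω i)
    have a2 := abs_le.1 (hnu ω' i)
    rw [abs_le]
    constructor <;> linarith)
  rw [Ex_const hp.sum_one] at h1
  refine h1.trans ?_
  refine mul_le_mul_of_nonneg_left ?_ (Nat.cast_nonneg c)
  have h2 : (1 : ℝ) ≤ 2 ^ X := one_le_pow₀ (by norm_num)
  have h3 : (1 : ℝ) ≤ C * 2 ^ X := one_le_mul_of_one_le_of_one_le hC h2
  have h4 : Real.log (5 * C) + X * Real.log 2 = Real.log (5 * C * 2 ^ X) := by
    rw [Real.log_mul (x := 5 * C) (by positivity) (by positivity), Real.log_pow]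
  rw [h4]
  refine Real.log_le_log (by positivity) ?_
  nlinarith

/-- Most worlds are not full. -/
theorem nf_most {n₀ : Fin c} {X B : ℕ} {c0 : ℝ} (hp : IsLaw H.p) (hX : 0 < X) (hc0 : 0 < c0)
    (hnf : nfb H.p H.nu H.b n₀ X B ≤ (1 - c0) * X * Real.log 2) (Z : Blk H.p H.b H.nu) :
    c0 / 2 ≤ Pb (wg Z) (fun w => nfb (rw' Z (wE Z w.1)) Z.y (fun _ => ()) n₀ X B ≤
      (1 - c0 / 4) * X * Real.log 2) := by
  classical
  have hl2 : 0 < Real.log 2 := Real.log_pos (by norm_num)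
  have hX' : (0 : ℝ) < X := by exact_mod_cast hX
  have h0 := Z.nn
  have h1 : ∑ e, Z.p e = 1 := by rw [blk_sum Z, hp.sum_one]
  obtain ⟨f, hf⟩ : ∃ f : Z.Ω → ℝ, f = fun e => nfb (rw' Z (wE Z e)) Z.y (fun _ => ()) n₀ X B :=
    ⟨_, rfl⟩
  have hf0 : ∀ e, 0 < Z.p e → 0 ≤ f e := fun e he => by
    rw [hf]
    exact nfb_nonneg (rw_law Z he).nonneg _ _ _ _ _
  have h2 : Ex Z.p f ≤ (1 - c0) * X * Real.log 2 := by
    have a1 : Ex Z.p f = nfb Z.p Z.y (wE Z) n₀ X B := by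
      rw [hf]
      exact avg_nfb h0 Z.y (wE Z) n₀ X B
    have a2 : nfb Z.p Z.y (wE Z) n₀ X B ≤ nfb Z.p Z.y Z.b n₀ X B :=
      nfb_mono h0 Z.y (fun _ _ _ _ h => (Prod.ext_iff.1 h).2) n₀ X B
    have a3 : nfb Z.p Z.y Z.b n₀ X B = nfb H.p H.nu H.b n₀ X B := nfb_law Z.ly n₀ X B
    linarith
  have h3 : 0 ≤ Ex Z.p f := Ex_nonneg h0 hf0
  have hc1 : c0 ≤ 1 := by
    by_contra hcon
    push Not at hcon
    have : (1 - c0) * X * Real.log 2 < 0 :=
      mul_neg_of_neg_of_pos (mul_neg_of_neg_of_pos (by linarith) hX') hl2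
    linarith
  obtain ⟨W, hW⟩ : ∃ W : ℝ, W = X * Real.log 2 := ⟨_, rfl⟩
  have hW0 : 0 < W := by rw [hW]; positivity
  -- Markov
  have h4 : (1 - c0 / 4) * W * Ex Z.p (fun e => ind ((1 - c0 / 4) * W < f e)) ≤ Ex Z.p f := by
    rw [← Ex_smul]
    refine Ex_mono h0 fun e he => ?_
    by_cases h : (1 - c0 / 4) * W < f e
    · have : ind ((1 - c0 / 4) * W < f e) = 1 := if_pos h
      rw [this, mul_one]
      exact h.le
    · have : ind ((1 - c0 / 4) * W < f e) = 0 := if_neg h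
      rw [this, mul_zero]
      exact hf0 e he
  have h5 : Ex Z.p (fun e => ind ((1 - c0 / 4) * W < f e)) =
      1 - Ex Z.p (fun e => ind (f e ≤ (1 - c0 / 4) * W)) := by
    have hone : Ex Z.p (fun _ => (1 : ℝ)) = 1 := Ex_const h1 1
    have hs := Ex_sub Z.p (fun _ => (1 : ℝ)) (fun e => ind (f e ≤ (1 - c0 / 4) * W))
    rw [hone] at hs
    rw [← hs]
    congr 1
    funext e
    by_cases h : (1 - c0 / 4) * W < f e
    · have e1 : ind ((1 - c0 / 4) * W < f e) = 1 := if_pos h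
      have e2 : ind (f e ≤ (1 - c0 / 4) * W) = 0 := if_neg (not_le.2 h)
      rw [e1, e2, sub_zero]
    · have e1 : ind ((1 - c0 / 4) * W < f e) = 0 := if_neg h
      have e2 : ind (f e ≤ (1 - c0 / 4) * W) = 1 := if_pos (not_lt.1 h)
      rw [e1, e2, sub_self]
  have h6 : Pb (wg Z) (fun w => nfb (rw' Z (wE Z w.1)) Z.y (fun _ => ()) n₀ X B ≤
      (1 - c0 / 4) * X * Real.log 2) = Ex Z.p (fun e => ind (f e ≤ (1 - c0 / 4) * W)) := by
    rw [Pb_eq, ← Ex_push (wg_fst Z) (fun e => ind (f e ≤ (1 - c0 / 4) * W)), hf, hW]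
    simp only [mul_assoc]
  rw [h6]
  obtain ⟨P, hP⟩ : ∃ P : ℝ, P = Ex Z.p (fun e => ind (f e ≤ (1 - c0 / 4) * W)) := ⟨_, rfl⟩
  rw [← hP] at h5 ⊢
  rw [h5] at h4
  have h7 : (1 - c0 / 4) * W * (1 - P) ≤ (1 - c0) * W := by
    refine h4.trans (h2.trans (le_of_eq ?_))
    rw [hW]
    ring
  have h8 : (1 - c0 / 4) * (1 - P) ≤ 1 - c0 := by
    have : (1 - c0 / 4) * (1 - P) * W ≤ (1 - c0) * W := by linarith
    exact le_of_mul_le_mul_right this hW0
  by_contra hcon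
  push Not at hcon
  nlinarith

end data

/-- The numbers. -/
theorem star_num {J η1 n3 io ε0 ε x ka l2 : ℝ} (hJ : 0 < J) (hη : 0 < η1) (hio : 0 < io)
    (hε0 : 0 < ε0) (hx : 0 < x) (hka : 0 < ka) (hl : 0 < l2) (hn3 : 0 < n3) {a b s : ℝ}
    (ha : a ≤ (3 * (1 + 3 * J) + 2) * (io * x)) (hb : b ≤ (2 * η1 + 2 * (n3 + 1) * io) * x)
    (hs : s ≤ (η1 + 2 * n3 * io) * x)
    (h : (3 * (1 + 3 * J) + 2) * 8 / (ka * l2) * io +
      (8 * J * (n3 + 1) + 4 * n3) / ε0 * io + (8 * J + 2) / ε0 * η1 ≤ ε) :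
    a / (ka * l2 / 8 * x) + 2 * (J * (b / (ε0 * x / 2))) + s / (ε0 * x / 2) ≤ ε := by
  have h1 : a / (ka * l2 / 8 * x) ≤ (3 * (1 + 3 * J) + 2) * 8 / (ka * l2) * io := by
    rw [div_le_iff₀ (by positivity)]
    refine ha.trans (le_of_eq ?_)
    field_simp
  have h2 : b / (ε0 * x / 2) ≤ 2 * (2 * η1 + 2 * (n3 + 1) * io) / ε0 := by
    rw [div_le_iff₀ (by positivity)]
    refine hb.trans (le_of_eq ?_)
    field_simp
  have h3 : s / (ε0 * x / 2) ≤ 2 * (η1 + 2 * n3 * io) / ε0 := by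
    rw [div_le_iff₀ (by positivity)]
    refine hs.trans (le_of_eq ?_)
    field_simp
  have h4 : 2 * (J * (b / (ε0 * x / 2))) ≤ 2 * (J * (2 * (2 * η1 + 2 * (n3 + 1) * io) / ε0)) := by
    have := mul_le_mul_of_nonneg_left h2 hJ.le
    linarith
  have h5 : 2 * (J * (2 * (2 * η1 + 2 * (n3 + 1) * io) / ε0)) + 2 * (η1 + 2 * n3 * io) / ε0 =
      (8 * J * (n3 + 1) + 4 * n3) / ε0 * io + (8 * J + 2) / ε0 * η1 := by
    field_simp
    ring
  linarith

/-- **STAR.** -/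
theorem star_stmt (c k : ℕ) : StarStmt c k := by
  classical
  intro n₀ C c0 hc0 hC
  refine ⟨C, hC, ?_⟩
  intro N B ka ε0 ε hB hka hε0 hε
  have hl2 : 0 < Real.log 2 := Real.log_pos (by norm_num)
  obtain ⟨J, hJ⟩ : ∃ J : ℝ, J = (N : ℝ) + 2 := ⟨_, rfl⟩
  have hJ0 : 0 < J := by rw [hJ]; positivity
  obtain ⟨η1, hη1⟩ : ∃ η1 : ℝ, η1 = ε * ε0 / (16 * J + 4) := ⟨_, rfl⟩
  have hη0 : 0 < η1 := by rw [hη1]; positivity
  obtain ⟨n, hn⟩ := exists_nat_gt ((c : ℝ) * (Real.log (5 * C) + Real.log 2) / η1)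
  obtain ⟨A, hA⟩ : ∃ A : ℝ, A = (3 * (1 + 3 * J) + 2) * 8 / (ka * Real.log 2) +
    (8 * J * (3 ^ n + 1) + 4 * 3 ^ n) / ε0 := ⟨_, rfl⟩
  have hA0 : 0 < A := by rw [hA]; positivity
  obtain ⟨io, hio⟩ : ∃ io : ℝ, io = ε / (2 * A) := ⟨_, rfl⟩
  have hio0 : 0 < io := by rw [hio]; positivity
  refine ⟨io, ⌈10 / ka⌉₊ + 1, hio0, ?_⟩
  intro H X hX ok
  have hp := ok.law
  have hX1 : 1 ≤ X := by omega
  have hx : (0 : ℝ) < X := by exact_mod_cast hX1
  have hx1 : (1 : ℝ) ≤ X := by exact_mod_cast hX1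
  have hkx : 10 ≤ ka * X := by
    have a1 : 10 / ka ≤ ⌈10 / ka⌉₊ := Nat.le_ceil _
    have a2 : ((⌈10 / ka⌉₊ + 1 : ℕ) : ℝ) ≤ X := by exact_mod_cast hX
    push_cast at a2
    rw [div_le_iff₀ hka] at a1
    nlinarith
  -- the finite types of the values
  have : Fintype (Set.range H.th) := Fintype.ofFinite _
  have : Fintype (Set.range H.v) := Fintype.ofFinite _
  obtain ⟨d, hd⟩ : ∃ d : ℝ, d = io * X := ⟨_, rfl⟩
  have hd0 : 0 < d := by rw [hd]; positivity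
  obtain ⟨g', hg'⟩ : ∃ g' : Set.range H.th → Set.range H.v → Fin c → ℤ,
    g' = fun t l => H.g t.1 l.1 := ⟨_, rfl⟩
  have h1 : CH H.p H.nu H.b - CH H.p H.nu (fun ω => (H.V' ω, (H.T' ω, H.b ω))) ≤ d := by
    have e : CH H.p H.nu (fun ω => (H.V' ω, (H.T' ω, H.b ω))) =
        CH H.p H.nu (fun ω => (H.v ω, (H.th ω, H.b ω))) := by
      refine CH_congr hp.nonneg (fun _ _ _ _ h => (Prod.ext_iff.1 h).1)
        (fun _ _ _ _ h => (Prod.ext_iff.1 h).1) ?_ ?_ <;>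
      · intro w w' _ _ h
        simp only [QH.V', QH.T', Prod.mk.injEq, Subtype.mk.injEq] at h ⊢
        exact h
    rw [e, hd]
    exact ok.h1
  have h2 : CH H.p (fun ω => H.nu ω + g' (H.T' ω) (H.V' ω)) (fun ω => (H.T' ω, H.b ω)) -
      CH H.p (fun ω => H.nu ω + g' (H.T' ω) (H.V' ω)) (fun ω => (H.V' ω, (H.T' ω, H.b ω))) ≤
        d := by
    have e1 : (fun ω => H.nu ω + g' (H.T' ω) (H.V' ω)) = H.hgt := by
      rw [hg']
      rfl
    have e2 : CH H.p H.hgt (fun ω => (H.T' ω, H.b ω)) =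
        CH H.p H.hgt (fun ω => (H.th ω, H.b ω)) := by
      refine CH_congr hp.nonneg (fun _ _ _ _ h => (Prod.ext_iff.1 h).1)
        (fun _ _ _ _ h => (Prod.ext_iff.1 h).1) ?_ ?_ <;>
      · intro w w' _ _ h
        simp only [QH.T', Prod.mk.injEq, Subtype.mk.injEq] at h ⊢
        exact h
    have e3 : CH H.p H.hgt (fun ω => (H.V' ω, (H.T' ω, H.b ω))) =
        CH H.p H.hgt (fun ω => (H.v ω, (H.th ω, H.b ω))) := by
      refine CH_congr hp.nonneg (fun _ _ _ _ h => (Prod.ext_iff.1 h).1)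
        (fun _ _ _ _ h => (Prod.ext_iff.1 h).1) ?_ ?_ <;>
      · intro w w' _ _ h
        simp only [QH.V', QH.T', Prod.mk.injEq, Subtype.mk.injEq] at h ⊢
        exact h
    rw [e1, e2, e3, hd]
    exact ok.h2
  have h3 : CH H.p H.T' H.b - CH H.p H.T' (fun ω => (H.V' ω, (H.nu ω, H.b ω))) ≤ d := by
    have e1 : CH H.p H.T' H.b = CH H.p H.th H.b := by
      refine CH_congr hp.nonneg ?_ ?_ (fun _ _ _ _ h => h) (fun _ _ _ _ h => h) <;>
      · intro w w' _ _ h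
        simp only [QH.T', Prod.mk.injEq, Subtype.mk.injEq] at h ⊢
        exact h.1
    have e2 : CH H.p H.T' (fun ω => (H.V' ω, (H.nu ω, H.b ω))) = CH H.p H.th H.line := by
      refine CH_congr hp.nonneg ?_ ?_ ?_ ?_ <;>
      · intro w w' _ _ h
        simp only [QH.V', QH.T', QH.line, Prod.mk.injEq, Subtype.mk.injEq] at h ⊢
        tauto
    rw [e1, e2, hd]
    exact ok.h0
  -- the block
  have hent : CH H.p H.nu H.b < n * (η1 * X) := by
    refine (nu_ent H hp hC ok.nu_b).trans_lt ?_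
    rw [div_lt_iff₀ hη0] at hn
    have hlC : 0 ≤ Real.log (5 * C) := Real.log_nonneg (by linarith)
    have a1 : (c : ℝ) * (Real.log (5 * C) + X * Real.log 2) ≤
        (c : ℝ) * (Real.log (5 * C) + Real.log 2) * X := by
      have a2 : Real.log (5 * C) ≤ Real.log (5 * C) * X := le_mul_of_one_le_right hlC hx1
      have a3 : (c : ℝ) * (Real.log (5 * C) + X * Real.log 2) ≤
          (c : ℝ) * (Real.log (5 * C) * X + X * Real.log 2) :=
        mul_le_mul_of_nonneg_left (by linarith) (Nat.cast_nonneg c)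
      linarith
    have a4 := mul_lt_mul_of_pos_right hn hx
    linarith
  obtain ⟨Z, hZt, hZd, hZs⟩ := pigeonT (b₀ := H.b) (n₀ := H.nu) hp.nonneg H.V' H.T' g'
    (η := η1 * X) n h1 h2 hd0.le hent
  have hZt2 := Z.dbl_t
  -- the graphs
  have hg : ∀ (t : Set.range H.th) (l : Set.range H.v) (i : Fin c), |(g' t l i : ℝ) -
      (H.tau t.1 * H.be l.1 i - ∑ u, H.E t.1 u i * H.y l.1 u + H.a0 t.1 i + H.b0 l.1 i)| ≤ C := by
    intro t l i
    rw [hg']
    exact ok.g_eq t.1 l.1 i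
  obtain ⟨q, hq⟩ : ∃ q : ℝ, q = (2 : ℝ) ^ (-(ka * X)) := ⟨_, rfl⟩
  have hq0 : 0 < q := by rw [hq]; positivity
  have hlq : Real.log (1 / (2 * q)) = ka * X * Real.log 2 - Real.log 2 := by
    rw [one_div, Real.log_inv, Real.log_mul (by norm_num) hq0.ne', hq,
      Real.log_rpow (by norm_num)]
    ring
  have hq1 : 4 * (ka * Real.log 2 / 8 * X + Real.log 2) ≤ Real.log (1 / (2 * q)) := by
    rw [hlq]
    nlinarith
  have hq2 : 2 * q ≤ 1 := by
    have a1 : q ≤ (2 : ℝ) ^ (-(1 : ℝ)) := by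
      rw [hq]
      exact Real.rpow_le_rpow_of_exponent_le (by norm_num) (by linarith)
    rw [Real.rpow_neg_one] at a1
    linarith
  have key := star_qd (k := k) H.V' H.T' g' Z hp X (tau := fun t : Set.range H.th => H.tau t.1)
    (y := fun l : Set.range H.v => H.y l.1) (fun t => ok.tau_r t.1) (fun l => ok.y_r l.1)
    (fun t => H.E t.1) (fun l => H.be l.1) (fun t => H.a0 t.1) (fun l => H.b0 l.1) hC
    (fun t => ok.E_b t.1) (fun l => ok.be_b l.1) hg h1 h2 h3 hZs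
    (t := ε0 * X / 2) (ε := ε0 * X / 2) (K0 := ka * Real.log 2 / 8 * X) (q := q)
    (by positivity) (by positivity) (by positivity) hq0 hq1 hq2 (N + 1)
  have hε2 : ε0 * (X : ℝ) / 2 + ε0 * X / 2 = ε0 * X := by ring
  rw [hε2] at key
  -- the numbers
  have hbd : Ex (st H.V' H.T' g' Z (N + 1)) (fun v => ind (¬ GoodQ Z (ε0 * X) C q X
      (fun t : Set.range H.th => H.tau t.1) (fun t : Set.range H.th => H.E t.1) (eE Z (v 0))
      (fun j : Fin (N + 1) => H.T' (v j.succ).2.1))) ≤ ε := by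
    refine key.trans ?_
    have b1 : X * Real.log 2 - CH H.p (fun ω => (fun t : Set.range H.th => H.tau t.1) (H.T' ω))
        H.b ≤ io * X := by
      have := ok.t_f
      have e : CH H.p (fun ω => (fun t : Set.range H.th => H.tau t.1) (H.T' ω)) H.b =
          CH H.p (fun ω => H.tau (H.th ω)) H.b := rfl
      rw [e]
      linarith
    have b2 : k * X * Real.log 2 - CH H.p (fun ω => (fun l : Set.range H.v => H.y l.1) (H.V' ω))
        H.b ≤ io * X := by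
      have := ok.y_f
      have e : CH H.p (fun ω => (fun l : Set.range H.v => H.y l.1) (H.V' ω)) H.b =
          CH H.p (fun ω => H.y (H.v ω)) H.b := rfl
      rw [e]
      linarith
    have hJn : (((N + 1 : ℕ) : ℝ) + 1) = J := by
      rw [hJ]
      push_cast
      ring
    rw [hJn]
    have n3 : (0 : ℝ) < 3 ^ n := by positivity
    have hZt' : Z.t ≤ 3 ^ n * (io * X) := by rw [← hd]; exact hZt
    refine star_num (J := J) (η1 := η1) (n3 := 3 ^ n) (io := io) hJ0 hη0 hio0 hε0 hx hka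
      hl2 n3 ?_ ?_ ?_ ?_
    · rw [hd]
      nlinarith
    · rw [hd]
      nlinarith
    · nlinarith
    · have e1 : (3 * (1 + 3 * J) + 2) * 8 / (ka * Real.log 2) * io +
          (8 * J * (3 ^ n + 1) + 4 * 3 ^ n) / ε0 * io = A * io := by
        rw [hA]
        ring
      have e2 : A * io = ε / 2 := by
        rw [hio]
        field_simp
      have e3 : (8 * J + 2) / ε0 * η1 = ε / 2 := by
        rw [hη1]
        have : (0 : ℝ) < 16 * J + 4 := by positivity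
        field_simp
        ring
      linarith
  -- the conclusion
  have hwl : H.wl (rk Z) = wg Z := by
    funext w
    exact wg_eq hp.nonneg Z H.v w
  refine ⟨Z.Ω, Z.inst, rk Z, fun e => nfb (rw' Z (wE Z e)) Z.y (fun _ => ()) n₀ X B ≤
    (1 - c0 / 4) * X * Real.log 2, rk_nn Z, rk_one hp Z, ?_, ?_⟩
  · rw [hwl]
    have := nf_most H hp hX1 hc0 ok.nf Z
    linarith
  · rw [hwl, Pb_eq]
    have hk : ∀ w w', 0 < wg Z w → 0 < wg Z w' →
        ((w.1 = w'.1 ∧ H.V' w.2 = H.V' w'.2) ↔ H.KK w = H.KK w') := by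
      intro w w' hw hw'
      have a1 := wg_pos hp.nonneg Z hw
      have a2 := wg_pos hp.nonneg Z hw'
      constructor
      · rintro ⟨b1, b2⟩
        have b3 : H.v w.2 = H.v w'.2 := Subtype.ext_iff.1 b2
        refine Prod.ext b1 (Prod.ext ?_ (Prod.ext b3 ?_))
        · show H.nu w.2 = H.nu w'.2
          rw [← a1.2.2.1, ← a2.2.2.1, b1]
        · show H.b w.2 = H.b w'.2
          rw [← a1.2.2.2, ← a2.2.2.2, b1]
      · intro h
        have b1 := Prod.ext_iff.1 h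
        have b2 : (H.nu w.2, (H.v w.2, H.b w.2)) = (H.nu w'.2, (H.v w'.2, H.b w'.2)) := b1.2
        simp only [Prod.mk.injEq] at b2
        exact ⟨b1.1, Subtype.ext b2.2.1⟩
    have e1 := star_wl hp.nonneg H.V' H.T' g' Z H.KK hk N (fun e θ => ind (¬ GoodQ Z (ε0 * X) C q X
      (fun t : Set.range H.th => H.tau t.1) (fun t : Set.range H.th => H.E t.1) e θ))
    refine le_trans ?_ (e1.symm.le.trans hbd)
    refine Ex_mono (tup_nonneg (wg_nn hp.nonneg Z) _ _) fun u hu => ind_mono ?_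
    rintro ⟨c1, c2⟩ c3
    have hu0 := ((tup_pos_iff (wg_nn hp.nonneg Z) _ _ u).1 hu).1 0
    have hz := (wg_pos hp.nonneg Z hu0).1
    rw [hq] at c3
    exact c2 (gd_of_good H hp.nonneg hC ok.nu_b Z hz c3 c1)

end Pool.QT64
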