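import Pool.Agent.H21.QW.Fin
import Pool.Agent.H64.QUAD.Top

/-!
# Row 366: tools for STAR

`tup_congr`, `tup_fac`: the tuples depend on the lines only through the partition of the support,
and tuples of an image. `avg_nfb`: the blockwise entropy `nfb` is an average over the values of the
context. `star_wl`: the star of the walk, without the first hop, is the law of the tuples of a line
with a world.
-/

set_option autoImplicit false
set_option linter.unusedSectionVars false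
set_option linter.unusedVariables false

namespace Pool.ST79

open Finset Real
open Pool.Agent.H49.Ent Pool.Agent.H32.Dense Pool.CH30 Pool.STK Pool.KS6 Pool.SLO Pool.RC21
open Pool.BFL (Pb)
open Pool.QC (nfb Absb)

/-! ### Tuples -/

section tup

variable {Ω Ω' Λ Λ' : Type} [Fintype Ω] [Fintype Ω'] {p : Ω → ℝ} {p' : Ω' → ℝ}

/-- The tuples depend on the lines only through the partition of the support. -/
theorem tup_congr (hp : ∀ ω, 0 ≤ p ω) {L : Ω → Λ} {M : Ω → Λ'}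
    (h : ∀ ω ω', 0 < p ω → 0 < p ω' → (L ω = L ω' ↔ M ω = M ω')) (N : ℕ) :
    tup p L N = tup p M N := by
  classical
  funext v
  rw [tup_eq, tup_eq]
  by_cases h0 : ∀ j, 0 < p (v j)
  · have h1 : (∀ j, L (v j) = L (v 0)) ↔ ∀ j, M (v j) = M (v 0) :=
      forall_congr' fun j => h _ _ (h0 j) (h0 0)
    have h2 : law p L (L (v 0)) = law p M (M (v 0)) := by
      unfold law
      refine Finset.sum_congr rfl fun ω _ => ?_
      rcases (hp ω).eq_or_lt with h3 | h3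
      · rw [← h3]
        simp
      · by_cases h4 : L ω = L (v 0)
        · rw [if_pos h4, if_pos ((h _ _ h3 (h0 0)).1 h4)]
        · rw [if_neg h4, if_neg fun h5 => h4 ((h _ _ h3 (h0 0)).2 h5)]
    rw [h2]
    by_cases h3 : ∀ j, L (v j) = L (v 0)
    · rw [if_pos h3, if_pos (h1.1 h3)]
    · rw [if_neg h3, if_neg fun h4 => h3 (h1.2 h4)]
  · push Not at h0
    obtain ⟨j, hj⟩ := h0
    have h1 : ∏ j, p (v j) = 0 :=
      Finset.prod_eq_zero (Finset.mem_univ j) (le_antisymm hj (hp _))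
    rw [h1, zero_div, zero_div, ite_self, ite_self]

/-- Tuples of an image, when the line is a function of the image. -/
theorem tup_fac (hp : ∀ ω, 0 ≤ p ω) (hp' : ∀ ω, 0 ≤ p' ω) {f : Ω' → Ω} (hm : Push p' p f)
    (M : Ω → Λ) (N : ℕ) :
    Push (tup p' (fun w => M (f w)) N) (tup p M N) (fun v j => f (v j)) := by
  classical
  refine tup_map (L := M) (L' := fun w => M (f w)) (g := fun z => z) hp hp' hm
    (fun _ _ => rfl) ?_ N
  intro z hz ω
  have h1 : law p' (fun w => M (f w)) z = law p M z := hm.law M z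
  unfold Pool.Agent.H49.Ent.cond
  rw [h1]
  by_cases h2 : M ω = z
  · rw [if_pos h2, ← hm ω, Finset.sum_div]
    refine Finset.sum_congr rfl fun w _ => ?_
    by_cases h3 : f w = ω
    · rw [if_pos h3, if_pos h3, if_pos (show M (f w) = z by rw [h3]; exact h2)]
    · rw [if_neg h3, if_neg h3, zero_div]
  · rw [if_neg h2]
    refine Finset.sum_eq_zero fun w _ => ?_
    by_cases h3 : f w = ω
    · rw [if_pos h3, if_neg (show ¬ M (f w) = z by rw [h3]; exact h2)]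
    · rw [if_neg h3]

end tup

/-! ### Probabilities -/

section prob

variable {Ω : Type} [Fintype Ω]

theorem Pb_eq (p : Ω → ℝ) (A : Ω → Prop) : Pb p A = Ex p (fun ω => ind (A ω)) := by
  classical
  unfold Pb Ex ind
  refine Finset.sum_congr rfl fun ω _ => ?_
  by_cases h : A ω
  · simp [h]
  · simp [h]

/-- Equality of averages on the support. -/
theorem Ex_supp {p : Ω → ℝ} (hp : ∀ ω, 0 ≤ p ω) {f g : Ω → ℝ} (h : ∀ ω, 0 < p ω → f ω = g ω) :
    Ex p f = Ex p g :=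
  le_antisymm (Ex_mono hp fun ω hω => (h ω hω).le) (Ex_mono hp fun ω hω => (h ω hω).ge)

end prob

/-! ### The blockwise entropy -/

section nfb

variable {Ω Ω' W W' T : Type} [Fintype Ω] [Fintype Ω'] {p : Ω → ℝ} {p' : Ω' → ℝ} {c : ℕ}

/-- Conditional entropies are averages. -/
theorem CH_cond_avg {S U : Type} (hp : ∀ ω, 0 ≤ p ω) (X : Ω → S) (Y : Ω → U) (Z : Ω → T) :
    CH p X (fun ω => (Y ω, Z ω)) = Ex p (fun ω => CH (cond p Z (Z ω)) X Y) := by
  have h1 := CH_chain hp X Y Z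
  have h2 := CH_val hp (fun ω => (X ω, Y ω)) Z
  have h3 := CH_val hp Y Z
  have h4 : Ex p (fun ω => CH (cond p Z (Z ω)) X Y) =
      Ex p (fun ω => H (cond p Z (Z ω)) (fun ω => (X ω, Y ω))) -
        Ex p (fun ω => H (cond p Z (Z ω)) Y) := by
    rw [← Ex_sub]
    rfl
  rw [h4, ← h2, ← h3, h1]
  ring

theorem Ex_sum {ι : Type} (s : Finset ι) (p : Ω → ℝ) (f : ι → Ω → ℝ) :
    Ex p (fun ω => ∑ i ∈ s, f i ω) = ∑ i ∈ s, Ex p (f i) := by
  unfold Ex
  rw [Finset.sum_comm]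
  exact Finset.sum_congr rfl fun ω _ => Finset.mul_sum _ _ _

theorem nfb_nonneg (hp : ∀ ω, 0 ≤ p ω) (R : Ω → Fin c → ℤ) (b : Ω → W) (n : Fin c) (X B : ℕ) :
    0 ≤ nfb p R b n X B :=
  Finset.sum_nonneg fun j _ => CH_nonneg hp _ _

/-- `nfb` is an average over the values of the context. -/
theorem avg_nfb (hp : ∀ ω, 0 ≤ p ω) (R : Ω → Fin c → ℤ) (Z : Ω → T) (n : Fin c) (X B : ℕ) :
    Ex p (fun ω => nfb (cond p Z (Z ω)) R (fun _ => ()) n X B) = nfb p R Z n X B := by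
  unfold nfb
  rw [Ex_sum]
  refine Finset.sum_congr rfl fun j _ => ?_
  rw [← CH_cond_avg hp]
  refine CH_congr hp ?_ ?_ ?_ ?_ <;>
  · intro w w' _ _ h
    simp only [Prod.mk.injEq] at h ⊢
    tauto

/-- `nfb` is monotone in the context. -/
theorem nfb_mono (hp : ∀ ω, 0 ≤ p ω) (R : Ω → Fin c → ℤ) {b : Ω → W} {b' : Ω → W'}
    (h : Det p b' b) (n : Fin c) (X B : ℕ) : nfb p R b' n X B ≤ nfb p R b n X B := by
  unfold nfb
  refine Finset.sum_le_sum fun j _ => CH_mono_cond hp ?_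
  intro w w' hw hw' e
  simp only [Prod.mk.injEq] at e ⊢
  exact ⟨e.1, e.2.1, h w w' hw hw' e.2.2⟩

/-- `nfb` depends only on the law. -/
theorem nfb_law {R : Ω → Fin c → ℤ} {R' : Ω' → Fin c → ℤ} {b : Ω → W} {b' : Ω' → W}
    (h : ∀ s, law p (fun ω => (R ω, b ω)) s = law p' (fun ω => (R' ω, b' ω)) s)
    (n : Fin c) (X B : ℕ) : nfb p R b n X B = nfb p' R' b' n X B := by
  unfold nfb
  refine Finset.sum_congr rfl fun j _ => ?_
  unfold CH
  congr 1
  · exact H_law fun x => law_map h (fun s : (Fin c → ℤ) × W => (s.1 n / 2 ^ (X - (j + 1) * X / B),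
      (s.1 n / 2 ^ (X - j * X / B),
      ((fun i : {i : Fin c // i ≠ n} => s.1 i / 2 ^ (X - (j + 1) * X / B)), s.2)))) x
  · exact H_law fun x => law_map h (fun s : (Fin c → ℤ) × W =>
      (s.1 n / 2 ^ (X - j * X / B),
      ((fun i : {i : Fin c // i ≠ n} => s.1 i / 2 ^ (X - (j + 1) * X / B)), s.2))) x

/-- `nfb` depends only on the values on the support. -/
theorem nfb_supp (hp : ∀ ω, 0 ≤ p ω) {R R' : Ω → Fin c → ℤ} (h : ∀ ω, 0 < p ω → R ω = R' ω)
    (b : Ω → W) (n : Fin c) (X B : ℕ) : nfb p R b n X B = nfb p R' b n X B := by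
  unfold nfb
  refine Finset.sum_congr rfl fun j _ => ?_
  exact CH_supp hp (fun ω hω => by rw [h ω hω]) (fun ω hω => by rw [h ω hω])

/-- Absorption depends only on the values on the support. -/
theorem absb_supp {c : ℕ} (hp : ∀ ω, 0 ≤ p ω) {R R' : Ω → Fin c → ℤ}
    (h : ∀ ω, 0 < p ω → R ω = R' ω) {A : Set (Fin c → ℤ)} {ε : ℝ} (hA : Absb p R A ε) :
    Absb p R' A ε := by
  intro Γ _ q hq n x hx s
  have h1 := hA Γ inferInstance q hq n x hx s
  have h2 : H p R = H p R' := H_supp hp h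
  have h3 : H (pr q p) (fun w => R w.2 + ∑ i, s i • x i w.1) =
      H (pr q p) (fun w => R' w.2 + ∑ i, s i • x i w.1) :=
    H_supp (pr_nn hq.nonneg hp) fun w hw => by
      rw [h _ (pr_pos hq.nonneg hp hw).2]
  rwa [h2, h3] at h1

end nfb

/-! ### The star and the tuples of a line with a world -/

section star

variable {Ω₀ : Type} [Fintype Ω₀] {G B A τ : Type} [AddCommGroup G]
  {p₀ : Ω₀ → ℝ} {b₀ : Ω₀ → B} {n₀ : Ω₀ → G}

/-- The kernel from the lines to the blocks: the block ends in the line. -/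
noncomputable def rk {A' : Type} (X : Blk p₀ b₀ n₀) (l : G × (A' × B)) (e : X.Ω) : ℝ :=
  open Classical in
  if law X.p (fun ω => (X.y ω, X.b ω)) (l.1, l.2.2) = 0 then X.p e else
    cond X.p (fun ω => (X.y ω, X.b ω)) (l.1, l.2.2) e

theorem rk_nn {A' : Type} (X : Blk p₀ b₀ n₀) (l : G × (A' × B)) (e : X.Ω) : 0 ≤ rk X l e := by
  unfold rk
  split_ifs
  · exact X.nn e
  · exact cond_nonneg X.nn _ _ _

theorem blk_sum (X : Blk p₀ b₀ n₀) : ∑ e, X.p e = ∑ ω, p₀ ω := by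
  have h := law_map X.ly (fun _ => ()) ()
  unfold law at h
  simpa using h

theorem rk_one {A' : Type} (hl : IsLaw p₀) (X : Blk p₀ b₀ n₀) (l : G × (A' × B)) :
    ∑ e, rk X l e = 1 := by
  unfold rk
  split_ifs with h
  · rw [blk_sum X, hl.sum_one]
  · exact sum_cond X.p _ h

/-- The law of the block and the line. -/
noncomputable def wg (X : Blk p₀ b₀ n₀) : X.Ω × Ω₀ → ℝ :=
  glue X.p p₀ (fun ω => (X.y ω, X.b ω)) (fun ω => (n₀ ω, b₀ ω))

theorem wg_eq {A' : Type} (hp : ∀ ω, 0 ≤ p₀ ω) (X : Blk p₀ b₀ n₀) (v : Ω₀ → A')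
    (w : X.Ω × Ω₀) : p₀ w.2 * rk X (n₀ w.2, (v w.2, b₀ w.2)) w.1 = wg X w := by
  classical
  unfold wg glue
  rcases (hp w.2).eq_or_lt with h | h
  · rw [← h]
    simp
  · have h1 : 0 < law X.p (fun ω => (X.y ω, X.b ω)) (n₀ w.2, b₀ w.2) := by
      rw [X.ly]
      exact law_pos hp (fun ω => (n₀ ω, b₀ ω)) h
    unfold rk
    rw [if_neg h1.ne']
    unfold Pool.Agent.H49.Ent.cond
    by_cases h2 : (X.y w.1, X.b w.1) = (n₀ w.2, b₀ w.2)
    · rw [if_pos h2, if_pos h2]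
      simp only [h2]
      ring
    · rw [if_neg h2, if_neg h2, mul_zero]

theorem wg_nn (hp : ∀ ω, 0 ≤ p₀ ω) (X : Blk p₀ b₀ n₀) : ∀ w, 0 ≤ wg X w := glue_nonneg X.nn hp

theorem wg_fst (X : Blk p₀ b₀ n₀) : Push (wg X) X.p Prod.fst := push_fst X.nn X.ly

theorem wg_pos (hp : ∀ ω, 0 ≤ p₀ ω) (X : Blk p₀ b₀ n₀) {w : X.Ω × Ω₀} (h : 0 < wg X w) :
    0 < X.p w.1 ∧ 0 < p₀ w.2 ∧ X.y w.1 = n₀ w.2 ∧ X.b w.1 = b₀ w.2 := by
  have h1 := (glue_pos_iff X.nn hp w).1 h
  have h2 := Prod.ext_iff.1 h1.2.2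
  exact ⟨h1.1, h1.2.1, h2.1, h2.2⟩

/-- **The star without the first hop.** -/
theorem star_wl (hp : ∀ ω, 0 ≤ p₀ ω) (V : Ω₀ → A) (T : Ω₀ → τ) (g : τ → A → G)
    (X : Blk p₀ b₀ n₀) {K : Type} (k : X.Ω × Ω₀ → K)
    (hk : ∀ w w', 0 < wg X w → 0 < wg X w' → ((w.1 = w'.1 ∧ V w.2 = V w'.2) ↔ k w = k w'))
    (N : ℕ) (Φ : G × B → (Fin (N + 1) → τ) → ℝ) :
    Ex (st V T g X (N + 1)) (fun v => Φ (eE X (v 0)) (fun j => T (v j.succ).2.1)) =
      Ex (tup (wg X) k N) (fun u => Φ (wE X (u 0).1) (fun j => T (u j).2)) := by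
  have he := ed_nn hp V T g X
  have h0 := st_nn hp V T g X (N + 1)
  obtain ⟨F, hF⟩ : ∃ F : (Fin (N + 1) → X.Ω × Ω₀) → ℝ, F = fun u => Φ (wE X (u 0).1)
    (fun j => T (u j).2) := ⟨_, rfl⟩
  have s1 : Ex (st V T g X (N + 1)) (fun v => Φ (eE X (v 0)) (fun j => T (v j.succ).2.1)) =
      Ex (st V T g X (N + 1)) (fun v => (fun u : Fin (N + 1) → X.Ω × (Ω₀ × Ω₀) =>
        F (fun j => ((u j).1, (u j).2.1))) (v ∘ Fin.succ)) := by
    refine Ex_supp h0 fun v hv => ?_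
    have h1 := (st_pos hp V T g X hv (Fin.succ 0)).2
    have h2 : (v (Fin.succ 0)).1 = (v 0).1 := (Prod.ext_iff.1 h1).1
    rw [hF]
    show Φ (eE X (v 0)) _ = Φ (wE X (v (Fin.succ 0)).1) _
    rw [h2]
    rfl
  have s2 : Ex (st V T g X (N + 1)) (fun v => (fun u : Fin (N + 1) → X.Ω × (Ω₀ × Ω₀) =>
        F (fun j => ((u j).1, (u j).2.1))) (v ∘ Fin.succ)) =
      Ex (tup (ed V T g X) (lE V X) N) (fun u => F (fun j => ((u j).1, (u j).2.1))) :=
    Ex_push (tup_sub (M := N) (N := N + 1) he (lE V X) Fin.succ (Fin.succ_injective _))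
      (fun u => F (fun j => ((u j).1, (u j).2.1)))
  have hpush : Push (ed V T g X) (wg X) (fun w => (w.1, w.2.1)) :=
    push_right X.nn (pE_fst hp V T g) X.ly
  have s3 : Ex (tup (ed V T g X) (lE V X) N) (fun u => F (fun j => ((u j).1, (u j).2.1))) =
      Ex (tup (wg X) (fun w => (w.1, V w.2)) N) F :=
    Ex_push (tup_fac (wg_nn hp X) he hpush (fun w => (w.1, V w.2)) N) F
  have s4 : tup (wg X) (fun w => (w.1, V w.2)) N = tup (wg X) k N :=
    tup_congr (wg_nn hp X) (fun w w' hw hw' => by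
      rw [← hk w w' hw hw']
      exact Prod.ext_iff) N
  rw [s1, s2, s3, s4, hF]

end star

end Pool.ST79
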