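import Pool.Agent.H79.QUAD.Star
import Pool.Agent.H16.ROW.Quad

/-!
# Row 366: QUAD is a theorem
-/

set_option autoImplicit false

namespace Pool.QT64

/-- **QUAD.** -/
theorem quad_stmt (c k : ℕ) : QuadStmt c k := Pool.ROW16.quad (star_stmt c k)

end Pool.QT64
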